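import Pool.Agent.N826.IT.V
import Pool.Agent.N733.AQ.A

set_option autoImplicit false

/-! The variance of the primes in the classes modulo all multiples of almost all moduli in a class `a mod q`,
`q ≤ X ^ (2 / 3 - ρ)`, `gcd (a, q)` at most a power of the logarithm. The proof follows `N826/IT/V` (where `a` is fixed). -/

namespace Pool.Agent.U365.MOD

open Finset Filter Topology
open Pool.Agent.Results.MP_5d318d_nt.ModuliInClasses (exceptional)
open Pool.Agent.N826.IT.Orb (V VM classcount)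

/-- the form with the members of the class -/
theorem ebt_of_sets {θ : ℝ} {Good : ℕ → Prop} (h : ∀ ρ : ℝ, 0 < ρ → ∀ A T : ℕ, ∃ X₀ : ℝ, ∀ X : ℝ, X₀ ≤ X →
    ∀ q : ℕ, 1 ≤ q → (q : ℝ) ≤ X ^ (θ - ρ) → ∀ a : ℤ, (Int.gcd a q : ℝ) ≤ Real.log X ^ T → ∀ S : Finset ℕ,
      (∀ n ∈ S, 0 < n ∧ (n : ℝ) ≤ X ∧ (n : ℤ) ≡ a [ZMOD q] ∧ ¬ Good n) →
        (S.card : ℝ) ≤ X / (q * Real.log X ^ A)) : Pool.Agent.N733.AQ.EBT θ Good := by
  intro ρ hρ A T
  obtain ⟨X₀, hX₀⟩ := h ρ hρ A T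
  refine ⟨X₀, fun X hX q hq hqX a ha V hV => ?_⟩
  have hcard : (V.image (fun v : ℕ => ((q : ℤ) * v + a).toNat)).card = V.card := by
    apply card_image_of_injOn
    intro v hv w hw h
    have e1 := (hV v hv).1
    have e2 := (hV w hw).1
    simp only at h
    have e3 : (q : ℤ) * v + a = (q : ℤ) * w + a := by omega
    have e4 : (q : ℤ) * v = (q : ℤ) * w := by linarith
    have e5 : (v : ℤ) = w := mul_left_cancel₀ (by exact_mod_cast (by omega : q ≠ 0)) e4
    exact_mod_cast e5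
  rw [← hcard]
  apply hX₀ X hX q hq hqX a ha
  intro n hn
  rw [mem_image] at hn
  obtain ⟨v, hv, rfl⟩ := hn
  obtain ⟨e1, e2, e3⟩ := hV v hv
  have e4 : ((((q : ℤ) * v + a).toNat : ℕ) : ℤ) = (q : ℤ) * v + a := Int.toNat_of_nonneg e1.le
  refine ⟨by omega, ?_, ?_, e3⟩
  · have e5 : ((((q : ℤ) * v + a).toNat : ℕ) : ℝ) = (((q : ℤ) * v + a : ℤ) : ℝ) := by
      rw [← Int.cast_natCast, e4]
    rw [e5]
    exact e2
  · rw [e4, Int.modEq_iff_dvd]
    exact ⟨-(v : ℤ), by ring⟩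

theorem ebt_VM (ε : ℝ) (hε : 0 < ε) (K : ℕ) : Pool.Agent.N733.AQ.EBT (2 / 3) (VM ε K) := by
  classical
  apply ebt_of_sets
  intro ρ₀ hρ₀ A T
  obtain ⟨ρ, hρd⟩ : ∃ ρ : ℝ, ρ = min ρ₀ (1 / 10) := ⟨_, rfl⟩
  have hρ : 0 < ρ := by rw [hρd]; exact lt_min hρ₀ (by norm_num)
  have hρ1 : ρ ≤ 1 / 10 := by rw [hρd]; exact min_le_right _ _
  have hρρ : ρ ≤ ρ₀ := by rw [hρd]; exact min_le_left _ _
  obtain ⟨B, hB⟩ : ∃ B, B = 2 * K + A + 2 := ⟨_, rfl⟩
  obtain ⟨X₁, hX₁⟩ := Pool.Agent.Results.MP_5d318d_nt.ModuliInClasses.result ε (ρ / 2) hε (by linarith) B B (K + T)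
  obtain ⟨x1, hx1⟩ := eventually_atTop.1 (Pool.Agent.R460.GS.real_log (K + A + 2) (s := ρ / 4) (by linarith) 4)
  refine ⟨max X₁ (max x1 1), fun X hX q hq hqX₀ h hh S hS => ?_⟩
  have hXX₁ : X₁ ≤ X := le_trans (le_max_left _ _) hX
  obtain ⟨hL4', hLp⟩ := hx1 X (le_trans (le_trans (le_max_left _ _) (le_max_right _ _)) hX)
  have hX1 : 1 ≤ X := le_trans (le_trans (le_max_right _ _) (le_max_right _ _)) hX
  have hX0 : (0 : ℝ) < X := by linarith
  obtain ⟨L, hL⟩ : ∃ L, L = Real.log X := ⟨_, rfl⟩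
  rw [← hL] at hL4' hLp hh
  have hL4 : 4 ≤ L := hL4'
  have hL0 : 0 < L := by linarith
  have hL1 : 1 ≤ L := by linarith
  have hq0 : (0 : ℝ) < q := by exact_mod_cast hq
  have hqX : (q : ℝ) ≤ X ^ (2 / 3 - ρ) := hqX₀.trans (Real.rpow_le_rpow_of_exponent_le hX1 (by linarith))
  obtain ⟨J, hJ⟩ : ∃ J, J = ⌊L ^ K⌋₊ := ⟨_, rfl⟩
  have hLK : 1 ≤ L ^ K := one_le_pow₀ hL1
  have hJ1 : 1 ≤ J := by
    rw [hJ]
    exact Nat.le_floor (by simpa using hLK)
  have hJL : (J : ℝ) ≤ L ^ K := by rw [hJ]; exact Nat.floor_le (by positivity)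
  have hJ1' : (1 : ℝ) ≤ J := by exact_mod_cast hJ1
  obtain ⟨X', hX'⟩ : ∃ X' : ℝ, X' = X * J := ⟨_, rfl⟩
  have hXX' : X ≤ X' := by rw [hX']; nlinarith
  have hX'0 : 0 < X' := by linarith
  have hLX' : L ≤ Real.log X' := by rw [hL]; exact Real.log_le_log hX0 hXX'
  have hl1 : 1 ≤ Real.log X' := by linarith
  -- the cover
  have hcover : S ⊆ (Icc 1 J).biUnion (fun j => S.filter (fun n => ¬ V ε K (j * n))) := by
    intro n hn
    obtain ⟨e1, e2, e3, e6⟩ := hS n hn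
    unfold VM at e6
    push Not at e6
    obtain ⟨j, j1, j2, j3⟩ := e6
    rw [mem_biUnion]
    refine ⟨j, ?_, ?_⟩
    · rw [mem_Icc]
      refine ⟨j1, ?_⟩
      rw [hJ]
      apply Nat.le_floor
      refine j2.trans ?_
      rw [hL]
      have h1 : (1 : ℝ) ≤ n := by exact_mod_cast e1
      exact pow_le_pow_left₀ (Real.log_nonneg h1) (Real.log_le_log (by linarith) e2) K
    · rw [mem_filter]
      exact ⟨hn, j3⟩
  -- one multiple
  have hone : ∀ j ∈ Icc 1 J, ((S.filter (fun n => ¬ V ε K (j * n))).card : ℝ) ≤ 2 * (X' / (q * L ^ B)) + 1 := by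
    intro j hj
    rw [mem_Icc] at hj
    have hj0 : (0 : ℝ) < j := by exact_mod_cast hj.1
    have hj1 : (1 : ℝ) ≤ j := by exact_mod_cast hj.1
    have hjJ : (j : ℝ) ≤ J := by exact_mod_cast hj.2
    obtain ⟨T₀, hT⟩ : ∃ T₀, T₀ = S.filter (fun n => ¬ V ε K (j * n)) := ⟨_, rfl⟩
    rw [← hT]
    obtain ⟨T1, hT1⟩ : ∃ T1, T1 = T₀.filter (fun n : ℕ => X' ≤ ((j * n : ℕ) : ℝ) * Real.log X' ^ B) := ⟨_, rfl⟩
    obtain ⟨T2, hT2⟩ : ∃ T2, T2 = T₀.filter (fun n : ℕ => ¬ X' ≤ ((j * n : ℕ) : ℝ) * Real.log X' ^ B) := ⟨_, rfl⟩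
    have hcard : T₀.card = T1.card + T2.card := by
      rw [hT1, hT2]
      exact (card_filter_add_card_filter_not (s := T₀)
        (fun n : ℕ => X' ≤ ((j * n : ℕ) : ℝ) * Real.log X' ^ B)).symm
    have hpow : L ^ B ≤ Real.log X' ^ B := pow_le_pow_left₀ hL0.le hLX' B
    -- T1
    have b1 : (T1.card : ℝ) ≤ X' / (q * L ^ B) := by
      have hjq1 : 1 ≤ j * q := Nat.mul_pos hj.1 hq
      have hjqX : ((j * q : ℕ) : ℝ) ≤ X' ^ (2 / 3 - ρ / 2) := by
        push_cast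
        have g1 : L ^ K ≤ X ^ (ρ / 4) := (pow_le_pow_right₀ hL1 (by omega)).trans hLp
        calc (j : ℝ) * q ≤ X ^ (ρ / 4) * X ^ (2 / 3 - ρ) :=
              mul_le_mul ((hjJ.trans hJL).trans g1) hqX (by positivity) (by positivity)
          _ = X ^ (ρ / 4 + (2 / 3 - ρ)) := by rw [Real.rpow_add hX0]
          _ ≤ X ^ (2 / 3 - ρ / 2) := Real.rpow_le_rpow_of_exponent_le hX1 (by linarith)
          _ ≤ X' ^ (2 / 3 - ρ / 2) := Real.rpow_le_rpow hX0.le hXX' (by linarith)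
      have hgcd : (Int.gcd ((j : ℤ) * h) ((j * q : ℕ) : ℤ) : ℝ) ≤ Real.log X' ^ (K + T) := by
        have e1 : Int.gcd ((j : ℤ) * h) ((j * q : ℕ) : ℤ) = j * Int.gcd h q := by
          push_cast
          rw [Int.gcd_mul_left, Int.natAbs_natCast]
        rw [e1]
        push_cast
        calc (j : ℝ) * (Int.gcd h q : ℝ) ≤ L ^ K * L ^ T :=
              mul_le_mul (hjJ.trans hJL) hh (by positivity) (by positivity)
          _ = L ^ (K + T) := by rw [pow_add]
          _ ≤ Real.log X' ^ (K + T) := pow_le_pow_left₀ hL0.le hLX' _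
      obtain ⟨hfin, hc⟩ := hX₁ X' (hXX₁.trans hXX') (j * q) hjq1 hjqX ((j : ℤ) * h) hgcd
      have hinj : Set.InjOn (fun n : ℕ => j * n) (T1 : Set ℕ) := by
        intro n _ m _ hnm
        simp only at hnm
        exact Nat.eq_of_mul_eq_mul_left hj.1 hnm
      have h1 : (T1.card : ℝ) ≤ ((exceptional ε B X' (j * q) ((j : ℤ) * h)).ncard : ℝ) := by
        rw [← card_image_of_injOn hinj, ← Set.ncard_coe_finset]
        have : ((T1.image (fun n : ℕ => j * n) : Finset ℕ) : Set ℕ).ncard ≤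
            (exceptional ε B X' (j * q) ((j : ℤ) * h)).ncard := by
          apply Set.ncard_le_ncard _ hfin
          intro t ht
          rw [mem_coe, mem_image] at ht
          obtain ⟨n, hn, rfl⟩ := ht
          rw [hT1, mem_filter, hT, mem_filter] at hn
          obtain ⟨⟨hnS, hnV⟩, hnX⟩ := hn
          obtain ⟨e1, e2, e3, e4⟩ := hS n hnS
          have hn1 : (1 : ℝ) ≤ n := by exact_mod_cast e1
          have hjnX : ((j * n : ℕ) : ℝ) ≤ X' := by
            rw [hX']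
            push_cast
            calc (j : ℝ) * n ≤ J * X := mul_le_mul hjJ e2 (by positivity) (by positivity)
              _ = X * J := by ring
          have hjn1 : (1 : ℝ) ≤ ((j * n : ℕ) : ℝ) := by
            push_cast
            nlinarith
          refine ⟨Nat.mul_pos hj.1 e1, hjnX, hnX, ?_, ?_⟩
          · push_cast
            exact e3.mul_left'
          · intro hgood
            apply hnV
            intro x hx1 hx2
            refine hgood x hx1 (hx2.trans ?_)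
            apply mul_le_mul_of_nonneg_left _ (by linarith)
            have h5 : Real.log ((j * n : ℕ) : ℝ) ≤ Real.log X' := Real.log_le_log (by linarith) hjnX
            calc Real.log ((j * n : ℕ) : ℝ) ^ K ≤ Real.log X' ^ K :=
                  pow_le_pow_left₀ (Real.log_nonneg hjn1) h5 K
              _ ≤ Real.log X' ^ B := pow_le_pow_right₀ hl1 (by omega)
        exact_mod_cast this
      refine h1.trans (hc.trans ?_)
      apply div_le_div_of_nonneg_left hX'0.le (by positivity)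
      push_cast
      calc (q : ℝ) * L ^ B ≤ q * Real.log X' ^ B := by gcongr
        _ = 1 * q * Real.log X' ^ B := by ring
        _ ≤ (j : ℝ) * q * Real.log X' ^ B := by gcongr
    -- T2
    have b2 : (T2.card : ℝ) ≤ X' / (q * L ^ B) + 1 := by
      have h1 := classcount T2 q hq h (X' / L ^ B) (by positivity) (by
        intro n hn
        rw [hT2, mem_filter, hT, mem_filter, not_le] at hn
        obtain ⟨⟨hnS, hnV⟩, hnX⟩ := hn
        obtain ⟨e1, e2, e3, e4⟩ := hS n hnS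
        refine ⟨?_, e3⟩
        rw [le_div_iff₀ (by positivity)]
        have hn1 : (1 : ℝ) ≤ n := by exact_mod_cast e1
        push_cast at hnX
        calc (n : ℝ) * L ^ B ≤ n * Real.log X' ^ B := by gcongr
          _ = 1 * n * Real.log X' ^ B := by ring
          _ ≤ (j : ℝ) * n * Real.log X' ^ B := by gcongr
          _ ≤ X' := hnX.le)
      rw [div_div, mul_comm (L ^ B)] at h1
      exact h1
    rw [hcard]
    push_cast
    linarith
  -- the sum
  have hsum : (S.card : ℝ) ≤ J * (2 * (X' / (q * L ^ B)) + 1) := by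
    have h1 : (S.card : ℝ) ≤ ∑ j ∈ Icc 1 J, ((S.filter (fun n => ¬ V ε K (j * n))).card : ℝ) := by
      have := (card_le_card hcover).trans card_biUnion_le
      exact_mod_cast this
    refine h1.trans ((sum_le_sum hone).trans ?_)
    rw [sum_const, Nat.card_Icc, nsmul_eq_mul, Nat.add_sub_cancel]
  refine hsum.trans ?_
  have c1 : (J : ℝ) * (2 * (X' / (q * L ^ B))) ≤ 1 / 2 * (X / (q * L ^ A)) := by
    rw [hX', ← mul_div_assoc, ← mul_div_assoc, ← mul_div_assoc, div_le_div_iff₀ (by positivity) (by positivity)]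
    have e1 : L ^ B = L ^ K * L ^ K * L ^ A * L ^ 2 := by
      rw [hB, ← pow_add, ← pow_add, ← pow_add]
      congr 1
      ring
    rw [e1]
    have e2 : (J : ℝ) * J ≤ L ^ K * L ^ K := mul_le_mul hJL hJL (by positivity) (by positivity)
    have e3 : 16 ≤ L ^ 2 := by nlinarith
    have e4 : 0 ≤ X * (q * L ^ A) := by positivity
    calc (J : ℝ) * (2 * (X * J)) * (q * L ^ A) = 2 * (J * J) * (X * (q * L ^ A)) := by ring
      _ ≤ 2 * (L ^ K * L ^ K) * (X * (q * L ^ A)) := by gcongr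
      _ ≤ (1 / 2 * L ^ 2) * (L ^ K * L ^ K) * (X * (q * L ^ A)) := by
        have e5 : (2 : ℝ) ≤ 1 / 2 * L ^ 2 := by linarith
        gcongr
      _ = 1 / 2 * X * (q * (L ^ K * L ^ K * L ^ A * L ^ 2)) := by ring
  have c2 : (J : ℝ) ≤ 1 / 2 * (X / (q * L ^ A)) := by
    rw [← mul_div_assoc, le_div_iff₀ (by positivity)]
    have g2 : L ^ K * L ^ A * 2 ≤ X ^ (ρ / 4) := by
      calc L ^ K * L ^ A * 2 ≤ L ^ K * L ^ A * L ^ 2 := by
            apply mul_le_mul_of_nonneg_left _ (by positivity)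
            nlinarith
        _ = L ^ (K + A + 2) := by rw [← pow_add, ← pow_add]
        _ ≤ X ^ (ρ / 4) := hLp
    have g3 : X ^ (2 / 3 - ρ) * X ^ (ρ / 4) ≤ X := by
      rw [← Real.rpow_add hX0]
      calc X ^ (2 / 3 - ρ + ρ / 4) ≤ X ^ (1 : ℝ) := Real.rpow_le_rpow_of_exponent_le hX1 (by linarith)
        _ = X := Real.rpow_one X
    calc (J : ℝ) * (q * L ^ A) ≤ L ^ K * (X ^ (2 / 3 - ρ) * L ^ A) := by gcongr
      _ = X ^ (2 / 3 - ρ) * (1 / 2 * (L ^ K * L ^ A * 2)) := by ring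
      _ ≤ X ^ (2 / 3 - ρ) * (1 / 2 * X ^ (ρ / 4)) := by gcongr
      _ = 1 / 2 * (X ^ (2 / 3 - ρ) * X ^ (ρ / 4)) := by ring
      _ ≤ 1 / 2 * X := by linarith
  have hJe : (J : ℝ) * (2 * (X' / (q * L ^ B)) + 1) = J * (2 * (X' / (q * L ^ B))) + J := by ring
  rw [hJe, ← hL]
  linarith

end Pool.Agent.U365.MOD
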