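import Pool.Agent.U365.MOD.A

set_option autoImplicit false

/-! From the variance to the mean over the classes and to almost all classes. -/

namespace Pool.Agent.U365.MOD

open Finset Filter Topology
open Pool.Agent.Results.MP_5d318d_nt.ModuliInClasses (G psiAP)
open Pool.Agent.N826.IT.Orb (V VM)

open Classical in
/-- the bounds in the mean over the classes modulo `Q`, and for almost all of them -/
def EHM (A K Q : ℕ) : Prop :=
  ∀ x : ℝ, (Q : ℝ) * Real.log Q ^ (3 * A + 2) ≤ x → x ≤ Q * Real.log Q ^ K →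
    ∑ a ∈ (range Q).filter (fun a => Nat.Coprime a Q), |psiAP x Q a - x / (Nat.totient Q : ℝ)| ≤ x / Real.log x ^ A ∧
    (((range Q).filter (fun a => Nat.Coprime a Q ∧ x / (Nat.totient Q * Real.log x ^ A) <
      |psiAP x Q a - x / (Nat.totient Q : ℝ)|)).card : ℝ) ≤ Nat.totient Q / Real.log x ^ A

theorem eh_of_var (A K : ℕ) : ∃ Q₀ : ℕ, ∀ Q : ℕ, Q₀ ≤ Q → V 1 K Q → EHM A K Q := by
  classical
  have hc := tendsto_natCast_atTop_atTop (R := ℝ)
  obtain ⟨Q₀, hQ₀⟩ := eventually_atTop.1 (hc.eventually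
    (Pool.Agent.R460.GS.real_log K (s := 1) one_pos (2 ^ (3 * A + 2) + 1)))
  refine ⟨Q₀ + 3, fun Q hQ hV x hx1 hx2 => ?_⟩
  obtain ⟨hl, hp⟩ := hQ₀ Q (by omega)
  rw [Real.rpow_one] at hp
  have hQ3 : (3 : ℝ) ≤ Q := by exact_mod_cast (by omega : 3 ≤ Q)
  have hQ0 : (0 : ℝ) < Q := by linarith
  obtain ⟨l, hld⟩ : ∃ l, l = Real.log (Q : ℝ) := ⟨_, rfl⟩
  rw [← hld] at hl hp hx1 hx2
  have hpw : (1 : ℝ) ≤ 2 ^ (3 * A + 2) := one_le_pow₀ (by norm_num)
  have hl1 : 1 ≤ l := by linarith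
  have hl0 : 0 < l := by linarith
  have hQx : (Q : ℝ) ≤ x := (le_mul_of_one_le_right hQ0.le (one_le_pow₀ hl1)).trans hx1
  have hx0 : 0 < x := by linarith
  -- log x ≤ 2 l
  have hlx : Real.log x ≤ 2 * l := by
    have h1 : x ≤ (Q : ℝ) ^ 2 := by
      calc x ≤ Q * l ^ K := hx2
        _ ≤ Q * Q := mul_le_mul_of_nonneg_left hp hQ0.le
        _ = (Q : ℝ) ^ 2 := by ring
    calc Real.log x ≤ Real.log ((Q : ℝ) ^ 2) := Real.log_le_log hx0 h1
      _ = 2 * l := by rw [Real.log_pow, hld]; norm_num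
  have hlx1 : l ≤ Real.log x := by rw [hld]; exact Real.log_le_log hQ0 hQx
  have hlx0 : 0 < Real.log x := by linarith
  have hφ1 : 1 ≤ Nat.totient Q := Nat.totient_pos.2 (by omega)
  have hφ0 : (0 : ℝ) < Nat.totient Q := by exact_mod_cast hφ1
  have hφQ : (Nat.totient Q : ℝ) ≤ Q := by exact_mod_cast Nat.totient_le Q
  obtain ⟨φ, hφ⟩ : ∃ φ : ℝ, φ = Nat.totient Q := ⟨_, rfl⟩
  rw [← hφ] at hφ0 hφQ ⊢
  -- the variance
  have hG : G x Q ≤ 2 * (x * l) := by
    have h1 := hV x hQx (by rw [← hld]; exact hx2)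
    rw [← hld] at h1
    have h2 := le_abs_self (G x Q - x * l)
    linarith
  have hGe : G x Q = ∑ a ∈ (range Q).filter (fun a => Nat.Coprime a Q), (psiAP x Q a - x / φ) ^ 2 := by
    unfold Pool.Agent.Results.MP_5d318d_nt.ModuliInClasses.G
    rw [hφ]
  -- the size of x
  have key : ∀ j : ℕ, j ≤ 3 * A → 2 * (φ * l) * Real.log x ^ j ≤ x := by
    intro j hj
    calc 2 * (φ * l) * Real.log x ^ j ≤ 2 * (Q * l) * (2 * l) ^ j := by gcongr
      _ = Q * (2 ^ (j + 1) * l ^ (j + 1)) := by rw [mul_pow, pow_succ, pow_succ]; ring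
      _ ≤ Q * (l * l ^ (3 * A + 1)) := by
          apply mul_le_mul_of_nonneg_left _ hQ0.le
          have h3 : (2 : ℝ) ^ (j + 1) ≤ 2 ^ (3 * A + 2) := pow_le_pow_right₀ (by norm_num) (by omega)
          exact mul_le_mul (by linarith) (pow_le_pow_right₀ hl1 (by omega)) (by positivity) hl0.le
      _ = Q * l ^ (3 * A + 2) := by ring
      _ ≤ x := hx1
  constructor
  · -- the mean
    obtain ⟨S, hS⟩ : ∃ S : ℝ, S = ∑ a ∈ (range Q).filter (fun a => Nat.Coprime a Q), |psiAP x Q a - x / φ| := ⟨_, rfl⟩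
    rw [← hS]
    have hcard : (((range Q).filter (fun a => Nat.Coprime a Q)).card : ℝ) = φ := by
      rw [hφ, Nat.totient_eq_card_coprime]
      congr 2
      apply filter_congr
      intro a _
      exact Nat.coprime_comm
    have h1 : S ^ 2 ≤ φ * G x Q := by
      rw [hS, hGe, ← hcard]
      have h2 := sq_sum_le_card_mul_sum_sq (s := (range Q).filter (fun a => Nat.Coprime a Q))
        (f := fun a => |psiAP x Q a - x / (Nat.totient Q : ℝ)|)
      simp only [sq_abs] at h2
      rw [← hφ] at h2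
      rw [hcard] at h2 ⊢
      exact h2
    have h3 : S ^ 2 ≤ (x / Real.log x ^ A) ^ 2 := by
      refine h1.trans ?_
      rw [div_pow, le_div_iff₀ (by positivity), ← pow_mul]
      calc φ * G x Q * Real.log x ^ (A * 2) ≤ φ * (2 * (x * l)) * Real.log x ^ (A * 2) := by gcongr
        _ = x * (2 * (φ * l) * Real.log x ^ (A * 2)) := by ring
        _ ≤ x * x := mul_le_mul_of_nonneg_left (key (A * 2) (by omega)) hx0.le
        _ = x ^ 2 := by ring
    exact abs_le_of_sq_le_sq' h3 (by positivity) |>.2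
  · -- Chebyshev
    obtain ⟨T, hT⟩ : ∃ T : Finset ℕ, T = (range Q).filter (fun a => Nat.Coprime a Q ∧ x / (φ * Real.log x ^ A) <
      |psiAP x Q a - x / φ|) := ⟨_, rfl⟩
    rw [← hT]
    have h1 : (T.card : ℝ) * (x / (φ * Real.log x ^ A)) ^ 2 ≤ G x Q := by
      rw [hGe, ← nsmul_eq_mul, ← sum_const]
      calc ∑ _a ∈ T, (x / (φ * Real.log x ^ A)) ^ 2 ≤ ∑ a ∈ T, (psiAP x Q a - x / φ) ^ 2 := by
            apply sum_le_sum
            intro a ha
            rw [hT, mem_filter] at ha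
            rw [← sq_abs (psiAP x Q a - x / φ)]
            exact pow_le_pow_left₀ (by positivity) ha.2.2.le 2
        _ ≤ ∑ a ∈ (range Q).filter (fun a => Nat.Coprime a Q), (psiAP x Q a - x / φ) ^ 2 := by
            apply sum_le_sum_of_subset_of_nonneg
            · intro a ha
              rw [hT, mem_filter] at ha
              rw [mem_filter]
              exact ⟨ha.1, ha.2.1⟩
            · intro a _ _
              positivity
    rw [le_div_iff₀ (by positivity)]
    have h2 : (T.card : ℝ) * x ^ 2 ≤ 2 * (x * l) * (φ * Real.log x ^ A) ^ 2 := by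
      have h3 := h1.trans hG
      rw [div_pow, mul_div_assoc', div_le_iff₀ (by positivity)] at h3
      exact h3
    have h4 : (T.card : ℝ) * Real.log x ^ A * x ^ 2 ≤ φ * x ^ 2 := by
      calc (T.card : ℝ) * Real.log x ^ A * x ^ 2 = (T.card : ℝ) * x ^ 2 * Real.log x ^ A := by ring
        _ ≤ 2 * (x * l) * (φ * Real.log x ^ A) ^ 2 * Real.log x ^ A := by gcongr
        _ = φ * x * (2 * (φ * l) * Real.log x ^ (3 * A)) := by
            rw [show 3 * A = A + A + A by ring, pow_add, pow_add]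
            ring
        _ ≤ φ * x * x := mul_le_mul_of_nonneg_left (key (3 * A) le_rfl) (by positivity)
        _ = φ * x ^ 2 := by ring
    exact le_of_mul_le_mul_right h4 (by positivity)

end Pool.Agent.U365.MOD
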