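import Pool.Agent.U365.MOD.C

set_option autoImplicit false

/-! The property of all the multiples: rare exceptions. -/

namespace Pool.Agent.U365.MOD

open Finset Filter Topology
open Pool.Agent.N826.IT.Orb (V VM Rare cbv cbN cb_and cb_mono)
open Pool.Agent.N733.TG (CB)

/-- a weaker property for all large numbers -/
theorem ebt_mono {θ : ℝ} (hθ : θ < 1) {Good Good' : ℕ → Prop} (h : ∃ h₀ : ℕ, ∀ n : ℕ, h₀ ≤ n → Good n → Good' n)
    (hE : Pool.Agent.N733.AQ.EBT θ Good) : Pool.Agent.N733.AQ.EBT θ Good' := by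
  classical
  intro ρ hρ A T
  obtain ⟨h₀, hh⟩ := h
  obtain ⟨X₀, hX₀⟩ := hE ρ hρ (A + 1) T
  obtain ⟨x1, hx1⟩ := eventually_atTop.1 (Pool.Agent.R460.GS.real_log (A + 1) (s := (1 - θ)) (by linarith)
    (2 * ((h₀ : ℝ) + 1) + 2))
  refine ⟨max X₀ (max x1 1), fun X hX q hq hqX a ha V hV => ?_⟩
  have hX1 : 1 ≤ X := le_trans (le_trans (le_max_right _ _) (le_max_right _ _)) hX
  have hX0 : (0 : ℝ) < X := by linarith
  obtain ⟨hLb, hLp⟩ := hx1 X (le_trans (le_trans (le_max_left _ _) (le_max_right _ _)) hX)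
  have hXX : X₀ ≤ X := le_trans (le_max_left _ _) hX
  obtain ⟨V₁, hV₁⟩ : ∃ V₁ : Finset ℕ, V₁ = V.filter (fun v : ℕ => ((q : ℤ) * v + a).toNat < h₀) := ⟨_, rfl⟩
  obtain ⟨V₂, hV₂⟩ : ∃ V₂ : Finset ℕ, V₂ = V.filter (fun v : ℕ => ¬ ((q : ℤ) * v + a).toNat < h₀) := ⟨_, rfl⟩
  have hc : V.card = V₁.card + V₂.card := by
    rw [hV₁, hV₂]
    exact (card_filter_add_card_filter_not _).symm
  have h1 : V₁.card ≤ h₀ := by
    have : (V₁.image (fun v : ℕ => ((q : ℤ) * v + a).toNat)).card = V₁.card := by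
      apply card_image_of_injOn
      intro v hv w hw h
      rw [hV₁, coe_filter] at hv hw
      have e1 := (hV v hv.1).1
      have e2 := (hV w hw.1).1
      simp only at h
      have e3 : (q : ℤ) * v + a = (q : ℤ) * w + a := by omega
      have e4 : (q : ℤ) * v = (q : ℤ) * w := by linarith
      have e5 : (v : ℤ) = w := mul_left_cancel₀ (by exact_mod_cast (by omega : q ≠ 0)) e4
      exact_mod_cast e5
    rw [← this]
    calc (V₁.image (fun v : ℕ => ((q : ℤ) * v + a).toNat)).card ≤ (range h₀).card := by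
          apply card_le_card
          intro n hn
          rw [mem_image] at hn
          obtain ⟨v, hv, rfl⟩ := hn
          rw [hV₁, mem_filter] at hv
          exact mem_range.2 hv.2
      _ = h₀ := card_range _
  have h2 : (V₂.card : ℝ) ≤ X / (q * Real.log X ^ (A + 1)) := by
    apply hX₀ X hXX q hq hqX a ha
    intro v hv
    rw [hV₂, mem_filter] at hv
    obtain ⟨g1, g2, g3⟩ := hV v hv.1
    exact ⟨g1, g2, fun hg => g3 (hh _ (by omega) hg)⟩
  obtain ⟨L, hL⟩ : ∃ L, L = Real.log X := ⟨_, rfl⟩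
  rw [← hL] at hLb hLp h2 ⊢
  have hh0 : (0 : ℝ) ≤ h₀ := Nat.cast_nonneg _
  have hL0 : 0 < L := by linarith
  have hL2 : 2 ≤ L := by linarith
  have hq0 : (0 : ℝ) < q := by exact_mod_cast hq
  have h3 : X / (q * L ^ (A + 1)) ≤ X / (q * L ^ A) / 2 := by
    rw [div_div, div_le_div_iff_of_pos_left hX0 (by positivity) (by positivity), pow_succ]
    have : 0 < q * L ^ A := by positivity
    nlinarith
  have h4 : (h₀ : ℝ) ≤ X / (q * L ^ A) / 2 := by
    rw [div_div, le_div_iff₀ (by positivity)]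
    calc (h₀ : ℝ) * (q * L ^ A * 2) = q * (L ^ A * (2 * h₀)) := by ring
      _ ≤ q * (L ^ A * L) := by
          apply mul_le_mul_of_nonneg_left _ hq0.le
          apply mul_le_mul_of_nonneg_left _ (by positivity)
          linarith
      _ = q * L ^ (A + 1) := by rw [pow_succ]
      _ ≤ X ^ (θ - ρ) * X ^ (1 - θ) := mul_le_mul hqX hLp (by positivity) (by positivity)
      _ = X ^ (θ - ρ + (1 - θ)) := by rw [Real.rpow_add hX0]
      _ ≤ X ^ (1 : ℝ) := Real.rpow_le_rpow_of_exponent_le hX1 (by linarith)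
      _ = X := Real.rpow_one X
  have h5 : (V.card : ℝ) = V₁.card + V₂.card := by exact_mod_cast hc
  have h6 : (V₁.card : ℝ) ≤ h₀ := by exact_mod_cast h1
  rw [h5]
  linarith

/-- a consequence of the variance formula for one modulus, for all the multiples -/
def Mult (P : ℕ → Prop) (K n : ℕ) : Prop := ∀ t : ℕ, 1 ≤ t → (t : ℝ) ≤ Real.log n ^ K → P (t * n)

theorem mult_of_VM {ε : ℝ} {K : ℕ} {P : ℕ → Prop} (h : ∃ Q₀ : ℕ, ∀ Q : ℕ, Q₀ ≤ Q → V ε K Q → P Q) :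
    ∃ n₀ : ℕ, ∀ n : ℕ, n₀ ≤ n → VM ε K n → Mult P K n := by
  obtain ⟨Q₀, hQ₀⟩ := h
  refine ⟨Q₀, fun n hn hV t ht1 ht2 => hQ₀ _ ?_ (hV t ht1 ht2)⟩
  calc Q₀ ≤ n := hn
    _ = 1 * n := (one_mul n).symm
    _ ≤ t * n := Nat.mul_le_mul_right n ht1

/-- rare exceptions in all classes -/
theorem ebt_mult (ε : ℝ) (hε : 0 < ε) (K : ℕ) (P : ℕ → Prop) (h : ∃ Q₀ : ℕ, ∀ Q : ℕ, Q₀ ≤ Q → V ε K Q → P Q) :
    Pool.Agent.N733.AQ.EBT (2 / 3) (Mult P K) :=
  ebt_mono (by norm_num) (mult_of_VM h) (ebt_VM ε hε K)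

/-- rare exceptions in the classes of a fixed number -/
theorem cb_mult (ε : ℝ) (hε : 0 < ε) (K : ℕ) (P : ℕ → Prop) (hP : ∃ Q₀ : ℕ, ∀ Q : ℕ, Q₀ ≤ Q → V ε K Q → P Q)
    (h : ℤ) (hne : h ≠ 0) (A : ℕ) : CB h (fun n => n < 3 ∨ Mult P K n) A := by
  obtain ⟨n₀, hn₀⟩ := mult_of_VM hP
  refine cb_mono (P := fun n => (n < 3 ∨ VM ε K n) ∧ n₀ ≤ n) (cb_and (fun A => cbv h hne ε hε K A) (fun A => cbN h n₀ A))
    (fun n hn => ?_) A
  rcases hn.1 with h1 | h1
  · exact Or.inl h1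
  · exact Or.inr (hn₀ n hn.2 h1)

end Pool.Agent.U365.MOD
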