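import Pool.Agent.U365.MOD.D

set_option autoImplicit false

/-! The bounds in the mean over the classes and for almost all classes, for all powers of the logarithm. -/

namespace Pool.Agent.U365.MOD

open Finset Filter Topology
open Pool.Agent.N826.IT.Orb (V VM Rare)

/-- the bounds for all exponents allowed by `K` -/
def EHK (K Q : ℕ) : Prop := ∀ A : ℕ, 3 * A + 2 ≤ K → EHM A K Q

theorem ehk_of_var (K : ℕ) : ∃ Q₀ : ℕ, ∀ Q : ℕ, Q₀ ≤ Q → V 1 K Q → EHK K Q := by
  choose Q₀ hQ₀ using fun A => eh_of_var A K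
  refine ⟨(range (K + 1)).sup Q₀, fun Q hQ hV A hA => hQ₀ A Q ?_ hV⟩
  exact le_trans (Finset.le_sup (f := Q₀) (mem_range.2 (by omega))) hQ

theorem ehk_mono {i j Q : ℕ} (hij : i ≤ j) (hQ : 3 ≤ Q) (h : EHK j Q) : EHK i Q := by
  intro A hA x hx1 hx2
  have hQ3 : (3 : ℝ) ≤ Q := by exact_mod_cast hQ
  have hl1 : 1 ≤ Real.log Q := by
    rw [Real.le_log_iff_exp_le (by linarith)]
    have := Real.exp_one_lt_d9
    linarith
  refine h A (by omega) x hx1 (hx2.trans ?_)
  exact mul_le_mul_of_nonneg_left (pow_le_pow_right₀ hl1 hij) (by linarith)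

theorem rare_EHK : Rare (fun j n => Mult (EHK j) j n) := by
  refine ⟨fun i j n hij hn h => ?_, fun j h hne A => cb_mult 1 one_pos j (EHK j) (ehk_of_var j) h hne A⟩
  intro t ht1 ht2
  have hn3 : (3 : ℝ) ≤ n := by exact_mod_cast hn
  have hl1 : 1 ≤ Real.log n := by
    rw [Real.le_log_iff_exp_le (by linarith)]
    have := Real.exp_one_lt_d9
    linarith
  refine ehk_mono hij ?_ (h t ht1 (ht2.trans (pow_le_pow_right₀ hl1 hij)))
  calc 3 ≤ n := hn
    _ = 1 * n := (one_mul n).symm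
    _ ≤ t * n := Nat.mul_le_mul_right n ht1

theorem ebt_EHK (K : ℕ) : Pool.Agent.N733.AQ.EBT (2 / 3) (Mult (EHK K) K) :=
  ebt_mult 1 one_pos K (EHK K) (ehk_of_var K)

end Pool.Agent.U365.MOD
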