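import Pool.Agent.U365.MOD.D
import Pool.Agent.R501.LP1

set_option autoImplicit false

/-! From the variance to the least primes, for all the multiples. -/

namespace Pool.Agent.U365.MOD

open Finset Filter Topology
open Pool.Agent.N826.IT.Orb (V VM Rare)
open Pool.Agent.R501.LP (LpG lpg_of_var lpg_iff)

theorem lp_of_V (κ : ℕ) (ε : ℝ) (hε : 0 < ε) (hε1 : ε ≤ 1) : ∃ Q₀ : ℕ, ∀ Q : ℕ, Q₀ ≤ Q → V (ε / 4) κ Q → LpG ε κ Q := by
  obtain ⟨Q₀, h⟩ := lpg_of_var κ ε hε hε1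
  refine ⟨Q₀ + 2, fun Q hQ hV => (lpg_iff ε κ Q (by omega)).1 (h Q (by omega) ?_)⟩
  exact hV

theorem ebt_LP (ε : ℝ) (hε : 0 < ε) (hε1 : ε ≤ 1) (K : ℕ) : Pool.Agent.N733.AQ.EBT (2 / 3) (Mult (LpG ε K) K) :=
  ebt_mult (ε / 4) (by positivity) K (LpG ε K) (lp_of_V K ε hε hε1)

theorem lpg_mono {ε ε' : ℝ} {i j Q : ℕ} (hε : ε ≤ ε') (hij : i ≤ j) (hQ : 3 ≤ Q) (h : LpG ε j Q) : LpG ε' i Q := by
  classical
  have hQ3 : (3 : ℝ) ≤ Q := by exact_mod_cast hQ
  have hl1 : 1 ≤ Real.log Q := by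
    rw [Real.le_log_iff_exp_le (by linarith)]
    have := Real.exp_one_lt_d9
    linarith
  have hφ : (0 : ℝ) ≤ Nat.totient Q := Nat.cast_nonneg _
  have hm : (1 + ε) * (Nat.totient Q : ℝ) ≤ (1 + ε') * Nat.totient Q := mul_le_mul_of_nonneg_right (by linarith) hφ
  intro x hx1 hx2
  obtain ⟨h1, h2⟩ := h x hx1 (hx2.trans (mul_le_mul_of_nonneg_left (pow_le_pow_right₀ hl1 hij) (by linarith)))
  exact ⟨h1.trans hm, fun η hη => (h2 η hη).trans hm⟩

theorem rare_LP : Rare (fun j n => Mult (LpG (1 / ((j : ℝ) + 1)) j) j n) := by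
  refine ⟨fun i j n hij hn h => ?_, fun j h hne A => cb_mult (1 / ((j : ℝ) + 1) / 4) (by positivity) j
    (LpG (1 / ((j : ℝ) + 1)) j) (lp_of_V j _ (by positivity) ?_) h hne A⟩
  · intro t ht1 ht2
    have hn3 : (3 : ℝ) ≤ n := by exact_mod_cast hn
    have hl1 : 1 ≤ Real.log n := by
      rw [Real.le_log_iff_exp_le (by linarith)]
      have := Real.exp_one_lt_d9
      linarith
    refine lpg_mono ?_ hij ?_ (h t ht1 (ht2.trans (pow_le_pow_right₀ hl1 hij)))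
    · apply one_div_le_one_div_of_le (by positivity)
      have : (i : ℝ) ≤ j := by exact_mod_cast hij
      linarith
    · calc 3 ≤ n := hn
        _ = 1 * n := (one_mul n).symm
        _ ≤ t * n := Nat.mul_le_mul_right n ht1
  · rw [div_le_one (by positivity)]
    have : (0 : ℝ) ≤ j := Nat.cast_nonneg _
    linarith

end Pool.Agent.U365.MOD
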