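import Pool.Agent.U365.MOD.D
import Pool.Agent.TH872.GQ.BT

set_option autoImplicit false

/-! From the variance to the Brun-Titchmarsh inequality with the constant `1`, for all the multiples. -/

namespace Pool.Agent.U365.MOD

open Finset Filter Topology
open Pool.Agent.N826.IT.Orb (V VM Rare)
open Pool.Agent.TH872.GQ.BT (cnt det)

open Classical in
/-- the inequality for almost all classes -/
def BTc (ε : ℝ) (T C D q : ℕ) : Prop :=
  (((range q).filter (fun l => Nat.Coprime l q ∧ ∃ x y : ℝ, q * Real.log q ^ C ≤ y ∧ y ≤ x ∧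
    x ≤ q * Real.log q ^ (C + D) ∧ (1 + ε) * (y / (Nat.totient q * Real.log q)) < cnt x y q l)).card : ℝ) ≤
    Nat.totient q / Real.log q ^ T

/-- the inequality for all exponents allowed by `K` -/
def BTK (ε : ℝ) (K q : ℕ) : Prop := ∀ C D T : ℕ, 2 * D + T + 2 ≤ C → C + D + 1 ≤ K → BTc ε T C D q

theorem btk_of_V (ε : ℝ) (hε : 0 < ε) (hε1 : ε ≤ 1) (K : ℕ) :
    ∃ Q₀ : ℕ, ∀ Q : ℕ, Q₀ ≤ Q → V 1 K Q → BTK ε K Q := by
  choose Q₀ hQ₀ using fun C D T (h : 2 * D + T + 2 ≤ C) => det ε hε hε1 C D T h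
  obtain ⟨Q₁, hQ₁⟩ : ∃ Q₁ : ℕ → ℕ → ℕ → ℕ, ∀ C D T (h : 2 * D + T + 2 ≤ C), Q₁ C D T = Q₀ C D T h := by
    refine ⟨fun C D T => if h : 2 * D + T + 2 ≤ C then Q₀ C D T h else 0, fun C D T h => ?_⟩
    simp only [h, dif_pos]
  refine ⟨3 + (range (K + 1)).sup (fun C => (range (K + 1)).sup (fun D => (range (K + 1)).sup (fun T => Q₁ C D T))),
    fun Q hQ hV C D T h1 h2 => ?_⟩
  have hle : Q₁ C D T ≤ Q := by
    have e1 : Q₁ C D T ≤ (range (K + 1)).sup (fun T => Q₁ C D T) :=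
      Finset.le_sup (f := fun T => Q₁ C D T) (mem_range.2 (by omega))
    have e2 : (range (K + 1)).sup (fun T => Q₁ C D T) ≤ (range (K + 1)).sup (fun D => (range (K + 1)).sup (fun T => Q₁ C D T)) :=
      Finset.le_sup (f := fun D => (range (K + 1)).sup (fun T => Q₁ C D T)) (mem_range.2 (by omega))
    have e3 : (range (K + 1)).sup (fun D => (range (K + 1)).sup (fun T => Q₁ C D T)) ≤
        (range (K + 1)).sup (fun C => (range (K + 1)).sup (fun D => (range (K + 1)).sup (fun T => Q₁ C D T))) :=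
      Finset.le_sup (f := fun C => (range (K + 1)).sup (fun D => (range (K + 1)).sup (fun T => Q₁ C D T)))
        (mem_range.2 (by omega))
    omega
  rw [hQ₁ C D T h1] at hle
  refine hQ₀ C D T h1 Q hle (fun x hx1 hx2 => ?_)
  have hQ3 : (3 : ℝ) ≤ Q := by exact_mod_cast (by omega : 3 ≤ Q)
  have hl1 : 1 ≤ Real.log Q := by
    rw [Real.le_log_iff_exp_le (by linarith)]
    have := Real.exp_one_lt_d9
    linarith
  have h3 := hV x hx1 (hx2.trans (mul_le_mul_of_nonneg_left (pow_le_pow_right₀ hl1 h2) (by linarith)))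
  have h4 := (abs_le.1 h3).2
  have h5 : Pool.Agent.Results.MP_5d318d_nt.ThinFamilyModuli.G x Q =
    Pool.Agent.Results.MP_5d318d_nt.ModuliInClasses.G x Q := rfl
  rw [h5]
  linarith

theorem ebt_BT (ε : ℝ) (hε : 0 < ε) (hε1 : ε ≤ 1) (K : ℕ) : Pool.Agent.N733.AQ.EBT (2 / 3) (Mult (BTK ε K) K) :=
  ebt_mult 1 one_pos K (BTK ε K) (btk_of_V ε hε hε1 K)

end Pool.Agent.U365.MOD
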